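import Pool.Agent.Q5.GS.Euler

/-! The continuation of the Euler products given by matrices, over number fields. -/

set_option autoImplicit false
set_option linter.unusedSectionVars false

namespace Pool.Agent.Q5.GS

open Module NumberField IsDedekindDomain Filter Pool.Agent.W353.NF Pool.Agent.W401.Cheb
  Pool.Agent.Q5.BR Pool.Agent.Q5.DP
open Pool.Agent.Q5.SO (Hyper)
open scoped Classical

section
variable {m : ℕ} (A : ℕ → Matrix (Fin m) (Fin m) ℂ) (S : Finset ℕ)

/-- the reciprocal Euler factor at a prime of `F` of norm `p ^ f`: `det (1 - (A p) ^ f (p ^ f) ^ (-s))`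
for `p ∉ S`, and `1` for `p ∈ S` -/
noncomputable def fac {F : Type} [Field F] [NumberField F] (w : HeightOneSpectrum (𝓞 F)) (s : ℂ) : ℂ :=
  if (Ideal.absNorm w.asIdeal).minFac ∈ S then 1 else
    (1 - ((Ideal.absNorm w.asIdeal : ℕ) : ℂ) ^ (-s) • A (Ideal.absNorm w.asIdeal).minFac ^
      (Ideal.absNorm w.asIdeal).factorization (Ideal.absNorm w.asIdeal).minFac).det

/-- the Euler product over `F` -/
noncomputable def LF (F : Type) [Field F] [NumberField F] (s : ℂ) : ℂ :=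
  ∏' w : HeightOneSpectrum (𝓞 F), (fac A S w s)⁻¹

/-- the `t`-th power of the Euler product over `F` extends to a meromorphic function on `ℂ` -/
def Cont (F : Type) [Field F] [NumberField F] (t : ℤ) : Prop :=
  ∃ g : ℂ → ℂ, (∀ s, MeromorphicAt g s) ∧ ∃ c : ℝ, ∀ s : ℂ, c < s.re → g s = (LF A S F s) ^ t

/-- the bound for the eigenvalues -/
def Bounded (κ : ℝ) : Prop :=
  ∀ p : ℕ, p.Prime → p ∉ S → ∀ a ∈ (A p).charpoly.roots, ‖a‖ ≤ (p : ℝ) ^ κ

variable {A S}
variable {F : Type} [Field F] [NumberField F]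

theorem minFac_of {p k n : ℕ} (hp : p.Prime) (hk : 0 < k) (h : n = p ^ k) :
    n.minFac = p ∧ n.factorization p = k := by
  subst h
  exact ⟨hp.pow_minFac hk.ne', by rw [hp.factorization_pow, Finsupp.single_eq_same]⟩

theorem term_bound {κ : ℝ} (hA : Bounded A S κ) {p k : ℕ} (hp : p.Prime) (hpS : p ∉ S) {s : ℂ}
    {a : ℂ} (ha : a ∈ (A p).charpoly.roots) :
    ‖((p ^ k : ℕ) : ℂ) ^ (-s) * a ^ k‖ ≤ ((p ^ k : ℕ) : ℝ) ^ (-(s.re - κ)) := by
  have hp0 : (0 : ℝ) < p := by exact_mod_cast hp.pos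
  have h1 : ‖((p ^ k : ℕ) : ℂ) ^ (-s)‖ = ((p ^ k : ℕ) : ℝ) ^ (-s.re) := by
    rw [Complex.norm_natCast_cpow_of_pos (pow_pos hp.pos k), Complex.neg_re]
  rw [norm_mul, norm_pow, h1]
  have h2 : ‖a‖ ^ k ≤ ((p ^ k : ℕ) : ℝ) ^ κ := by
    have h3 := pow_le_pow_left₀ (norm_nonneg a) (hA p hp hpS a ha) k
    refine h3.trans (le_of_eq ?_)
    rw [Nat.cast_pow, ← Real.rpow_natCast, ← Real.rpow_mul hp0.le, ← Real.rpow_natCast,
      ← Real.rpow_mul hp0.le, mul_comm]
  have hpk : (0 : ℝ) < ((p ^ k : ℕ) : ℝ) := by exact_mod_cast pow_pos hp.pos k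
  have h4 : ((p ^ k : ℕ) : ℝ) ^ (-(s.re - κ)) = ((p ^ k : ℕ) : ℝ) ^ (-s.re) *
      ((p ^ k : ℕ) : ℝ) ^ κ := by
    rw [← Real.rpow_add hpk]
    congr 1
    ring
  rw [h4]
  exact mul_le_mul_of_nonneg_left h2 (Real.rpow_nonneg hpk.le _)

theorem fac_eq {w : HeightOneSpectrum (𝓞 F)} {p k : ℕ} (hp : p.Prime) (hk : 0 < k)
    (h : Ideal.absNorm w.asIdeal = p ^ k) (s : ℂ) :
    fac A S w s = if p ∈ S then 1 else
      (((A p).charpoly.roots.map fun a => ((p ^ k : ℕ) : ℂ) ^ (-s) * a ^ k).map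
        fun b => 1 - b).prod := by
  obtain ⟨h1, h2⟩ := minFac_of hp hk h
  unfold fac
  rw [h1, h2, h, det_one_sub, Multiset.map_map]
  rfl

theorem fac_bound {κ : ℝ} (hA : Bounded A S κ) {s : ℂ} (hs : κ + 1 < s.re)
    (w : HeightOneSpectrum (𝓞 F)) :
    ‖fac A S w s - 1‖ ≤ (m * Real.exp m) * (Ideal.absNorm w.asIdeal : ℝ) ^ (-(s.re - κ)) := by
  obtain ⟨p, k, hp, hk, h⟩ := exists_pk w
  have hpk : (1 : ℝ) ≤ ((p ^ k : ℕ) : ℝ) := by exact_mod_cast Nat.one_le_pow _ _ hp.pos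
  rw [fac_eq hp hk h, h]
  split_ifs with hS
  · rw [sub_self, norm_zero]
    have h1 : (0 : ℝ) ≤ ((p ^ k : ℕ) : ℝ) ^ (-(s.re - κ)) := Real.rpow_nonneg (by linarith) _
    have h2 : (0 : ℝ) ≤ m * Real.exp m := mul_nonneg (Nat.cast_nonneg m) (Real.exp_pos _).le
    exact mul_nonneg h2 h1
  · have h3 := multiset_bound ((A p).charpoly.roots.map fun a =>
      ((p ^ k : ℕ) : ℂ) ^ (-s) * a ^ k) (t := ((p ^ k : ℕ) : ℝ) ^ (-(s.re - κ)))
      (Real.rpow_le_one_of_one_le_of_nonpos hpk (by linarith))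
      (Real.rpow_nonneg (by linarith) _) (by
        intro b hb
        obtain ⟨a, ha, rfl⟩ := Multiset.mem_map.1 hb
        exact term_bound hA hp hS ha)
    rwa [Multiset.card_map, card_roots] at h3

theorem fac_ne {κ : ℝ} (hA : Bounded A S κ) {s : ℂ} (hs : κ + 1 < s.re)
    (w : HeightOneSpectrum (𝓞 F)) : fac A S w s ≠ 0 := by
  obtain ⟨p, k, hp, hk, h⟩ := exists_pk w
  have hpk : (1 : ℝ) < ((p ^ k : ℕ) : ℝ) := by exact_mod_cast Nat.one_lt_pow hk.ne' hp.one_lt
  rw [fac_eq hp hk h]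
  split_ifs with hS
  · exact one_ne_zero
  · intro h0
    rw [Multiset.prod_eq_zero_iff] at h0
    obtain ⟨b, hb, hb0⟩ := Multiset.mem_map.1 h0
    obtain ⟨a, ha, rfl⟩ := Multiset.mem_map.1 hb
    have h1 := term_bound (k := k) (s := s) hA hp hS ha
    have h2 : ((p ^ k : ℕ) : ℂ) ^ (-s) * a ^ k = 1 := (sub_eq_zero.1 hb0).symm
    rw [h2, norm_one] at h1
    have h3 : ((p ^ k : ℕ) : ℝ) ^ (-(s.re - κ)) < 1 :=
      Real.rpow_lt_one_of_one_lt_of_neg hpk (by linarith)
    linarith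

theorem fac_summable {κ : ℝ} (hA : Bounded A S κ) {s : ℂ} (hs : κ + 1 < s.re) :
    Summable fun w : HeightOneSpectrum (𝓞 F) => -Complex.log (fac A S w s) := by
  have h1 : Summable fun w : HeightOneSpectrum (𝓞 F) => (m * Real.exp m) *
      (Ideal.absNorm w.asIdeal : ℝ) ^ (-(s.re - κ)) :=
    (Pool.Agent.H921R2.TatePole.nm_summable (K := F) (x := s.re - κ) (by linarith)).mul_left _
  have h2 : Summable fun w : HeightOneSpectrum (𝓞 F) => fac A S w s - 1 :=
    Summable.of_norm_bounded h1 fun w => fac_bound hA hs w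
  have h3 := Complex.summable_log_one_add_of_summable h2
  simp only [add_sub_cancel] at h3
  exact h3.neg

theorem LF_exp {κ : ℝ} (hA : Bounded A S κ) {s : ℂ} (hs : κ + 1 < s.re) :
    LF A S F s = Complex.exp (∑' w : HeightOneSpectrum (𝓞 F), -Complex.log (fac A S w s)) := by
  rw [← (fac_summable hA hs).hasSum.cexp.tprod_eq]
  unfold LF
  refine tprod_congr fun w => ?_
  change _ = Complex.exp (-Complex.log (fac A S w s))
  rw [Complex.exp_neg, Complex.exp_log (fac_ne hA hs w)]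

theorem LF_ne {κ : ℝ} (hA : Bounded A S κ) {s : ℂ} (hs : κ + 1 < s.re) : LF A S F s ≠ 0 := by
  rw [LF_exp hA hs]
  exact Complex.exp_ne_zero _

theorem fac_mer (w : HeightOneSpectrum (𝓞 F)) (s : ℂ) :
    MeromorphicAt (fun s => fac A S w s) s := by
  obtain ⟨p, k, hp, hk, h⟩ := exists_pk w
  have h0 : ((p ^ k : ℕ) : ℂ) ≠ 0 := by exact_mod_cast (pow_pos hp.pos k).ne'
  have h1 : Differentiable ℂ (fun s => fac A S w s) := by
    have h2 : (fun s => fac A S w s) = fun s => if p ∈ S then 1 else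
      ((A p).charpoly.roots.map fun a => 1 - ((p ^ k : ℕ) : ℂ) ^ (-s) * a ^ k).prod := by
      funext s
      rw [fac_eq hp hk h, Multiset.map_map]
      rfl
    rw [h2]
    split_ifs
    · exact differentiable_const _
    · have h3 : ∀ M : Multiset ℂ, Differentiable ℂ fun s : ℂ =>
          (M.map fun a => 1 - ((p ^ k : ℕ) : ℂ) ^ (-s) * a ^ k).prod := by
        intro M
        induction M using Multiset.induction_on with
        | empty => simp
        | cons a M ih =>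
          simp only [Multiset.map_cons, Multiset.prod_cons]
          refine Differentiable.mul ?_ ih
          refine (differentiable_const _).sub (Differentiable.mul ?_ (differentiable_const _))
          intro z
          exact (differentiableAt_id.neg).const_cpow (Or.inl h0)
      exact h3 _
  exact (h1.analyticAt s).meromorphicAt

/-- **The Euler products in a relation.** -/
theorem LF_rel {κ : ℝ} (hA : Bounded A S κ) {ι : Type} [Fintype ι] {X : ι → Ext F} {n : ι → ℤ}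
    (hrel : Rel X n) : ∃ g : ℂ → ℂ, (∀ s, MeromorphicAt g s) ∧ ∀ s : ℂ, κ + 1 < s.re →
      ∏ j, (LF A S (X j).F s) ^ (n j) = g s := by
  obtain ⟨S₀, hS₀⟩ := euler_rel hrel
  choose P k hP hk hPk using exists_pk (F := F)
  refine ⟨fun s => ∏ v ∈ S₀, ∏ j, (∏ w ∈ above (X j).F v, (fac A S w s)⁻¹) ^ (n j), fun s => ?_,
    fun s hs => ?_⟩
  · refine MeromorphicAt.fun_prod fun v _ => MeromorphicAt.fun_prod fun j _ => ?_
    exact MeromorphicAt.fun_zpow (MeromorphicAt.fun_prod fun w _ => (fac_mer w s).fun_inv) _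
  · have h1 := hS₀ S₀ (Finset.Subset.refl _) (fun j w => -Complex.log (fac A S w s))
      (fun v f => -Complex.log (if P v ∈ S then 1 else
        (((A (P v)).charpoly.roots.map fun a => ((P v ^ (k v * f) : ℕ) : ℂ) ^ (-s) *
          a ^ (k v * f)).map fun b => 1 - b).prod))
      (fun j => fac_summable hA hs) (by
        intro j w _
        rw [fac_eq (hP _) (Nat.mul_pos (hk _) (rdeg_pos (K := F) w)) (by
          rw [absNorm_rdeg (K := F) w, hPk, ← pow_mul])])
    have h2 := congrArg Complex.exp h1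
    rw [Complex.exp_sum, Complex.exp_sum] at h2
    have h4 : ∀ j, Complex.exp ((n j : ℂ) * ∑' w : HeightOneSpectrum (𝓞 (X j).F),
        -Complex.log (fac A S w s)) = (LF A S (X j).F s) ^ (n j) := by
      intro j
      rw [Complex.exp_int_mul, LF_exp hA hs]
    rw [Finset.prod_congr rfl fun j _ => h4 j] at h2
    rw [h2]
    refine Finset.prod_congr rfl fun v _ => ?_
    rw [Complex.exp_sum]
    refine Finset.prod_congr rfl fun j _ => ?_
    rw [Complex.exp_int_mul, Complex.exp_sum]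
    congr 1
    refine Finset.prod_congr rfl fun w _ => ?_
    rw [Complex.exp_neg, Complex.exp_log (fac_ne hA hs w)]

end

section
variable {m : ℕ} {A : ℕ → Matrix (Fin m) (Fin m) ℂ} {S : Finset ℕ} {κ : ℝ}
variable {K : Type} [Field K] [NumberField K]

theorem cont_step (hA : Bounded A S κ) (F : Type) [Field F] [NumberField F]
    (ι : Type) [Fintype ι] (Y : ι → Ext F) (n : ι → ℤ) (r : ℤ)
    (hrel : ∀ σ : GK F, ∑ j, n j * (fixn F (Y j).F σ : ℤ) = r) (t : ℤ)
    (h : ∀ j, Cont A S (Y j).F t) : Cont A S F (r * t) := by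
  let Y' : Option ι → Ext F := fun o => o.elim (Ext.mk F) Y
  let n' : Option ι → ℤ := fun o => o.elim (-r) n
  have hrel' : Rel Y' n' := by
    intro σ
    rw [Fintype.sum_option]
    change (-r) * (fixn F F σ : ℤ) + ∑ j, n j * (fixn F (Y j).F σ : ℤ) = 0
    rw [hrel σ, fixn_self]
    push_cast
    ring
  obtain ⟨g₀, hg₀, h0⟩ := LF_rel hA hrel'
  choose g hg c hc using h
  refine ⟨fun s => (g₀ s)⁻¹ ^ t * ∏ j, (g j s) ^ (n j), fun s => ?_,
    max (κ + 1) (∑ j, |c j|), fun s hs => ?_⟩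
  · exact (hg₀ s).fun_inv.fun_zpow t |>.fun_mul
      (MeromorphicAt.fun_prod fun j _ => (hg j s).fun_zpow (n j))
  · have hs0 : κ + 1 < s.re := (le_max_left _ _).trans_lt hs
    have hsj : ∀ j, c j < s.re := by
      intro j
      refine ((le_abs_self _).trans ?_).trans_lt ((le_max_right _ _).trans_lt hs)
      exact Finset.single_le_sum (f := fun j => |c j|) (fun _ _ => abs_nonneg _) (Finset.mem_univ j)
    have h1 := h0 s hs0
    rw [Fintype.prod_option] at h1
    change (LF A S F s) ^ (-r) * ∏ j, (LF A S (Y j).F s) ^ (n j) = g₀ s at h1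
    have hL : LF A S F s ≠ 0 := LF_ne hA hs0
    have hL' : ∀ j, LF A S (Y j).F s ≠ 0 := fun j => LF_ne hA hs0
    have hP : ∏ j, (LF A S (Y j).F s) ^ (n j) ≠ 0 :=
      Finset.prod_ne_zero_iff.2 fun j _ => zpow_ne_zero _ (hL' j)
    have h2 : (LF A S F s) ^ r = (g₀ s)⁻¹ * ∏ j, (LF A S (Y j).F s) ^ (n j) := by
      rw [← h1, zpow_neg, mul_inv, inv_inv, mul_assoc, inv_mul_cancel₀ hP, mul_one]
    have h5 : (∏ j, (LF A S (Y j).F s) ^ (n j)) ^ t = ∏ j, (g j s) ^ (n j) := by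
      rw [← Finset.prod_zpow]
      refine Finset.prod_congr rfl fun j _ => ?_
      rw [hc j s (hsj j), ← zpow_mul, ← zpow_mul, mul_comm]
    rw [zpow_mul, h2, mul_zpow, h5]

theorem cont_isLaw (hA : Bounded A S κ) :
    VL.IsLaw (K := K) (fun F _ _ _ t => Cont A S F t) where
  zero := fun F _ _ _ => ⟨fun _ => 1, fun _ => MeromorphicAt.const _ _, 0, fun s _ =>
    (zpow_zero _).symm⟩
  add := by
    rintro F _ _ _ t u ⟨g, hg, c, hc⟩ ⟨g', hg', c', hc'⟩
    refine ⟨fun s => g s * g' s, fun s => (hg s).fun_mul (hg' s), max (max c c') (κ + 1),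
      fun s hs => ?_⟩
    have h1 : c < s.re := ((le_max_left c c').trans (le_max_left _ _)).trans_lt hs
    have h2 : c' < s.re := ((le_max_right c c').trans (le_max_left _ _)).trans_lt hs
    have h3 : κ + 1 < s.re := (le_max_right _ _).trans_lt hs
    change g s * g' s = _
    rw [hc s h1, hc' s h2, zpow_add₀ (LF_ne hA h3)]
  neg := by
    rintro F _ _ _ t ⟨g, hg, c, hc⟩
    refine ⟨fun s => (g s)⁻¹, fun s => (hg s).fun_inv, c, fun s hs => ?_⟩
    change (g s)⁻¹ = _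
    rw [hc s hs, zpow_neg]
  step := fun F _ _ _ ι _ Y _ _ n r hrel t h => cont_step hA F ι Y n r hrel t h

/-- the descent from the subfields of a Galois extension -/
theorem cont_hyper (hA : Bounded A S κ) (L : Type) [Field L] [NumberField L] [IsGalois ℚ L]
    (h : ∀ (F : Type) [Field F] [NumberField F] [Algebra F L], Hyper (L ≃ₐ[F] L) → Cont A S F 1)
    (F : Type) [Field F] [NumberField F] [Algebra F L] : Cont A S F 1 := by
  have hst : IsScalarTower ℚ F L := inferInstance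
  have hgal : IsGalois F L := IsGalois.tower_top_of_isGalois ℚ F L
  obtain ⟨ι, hι, Y, a, n, hY, hrel⟩ := hyper_relation L F
  have h1 := cont_step hA F ι Y n 1 hrel 1 (fun j => by
    let _ := a j
    exact h (Y j).F (hY j))
  rwa [one_mul] at h1

theorem cont_exact (hA : Bounded A S κ) {𝓕 : Set (Subfield (AlgebraicClosure ℚ))}
    (h : ExactS 𝓕) (h1 : ∀ F ∈ 𝓕, ∀ [NumberField F], Cont A S F 1) : Cont A S ℚ 1 := by
  refine exactS_law (K := ℚ) (finrank_self ℚ) h (cont_isLaw hA) ?_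
  intro F hF hnf
  exact h1 _ hF

theorem cont_wide (hA : Bounded A S κ) {𝓕 : Set (Subfield (AlgebraicClosure ℚ))}
    (h : WideS 𝓕) (h1 : ∀ F ∈ 𝓕, ∀ [NumberField F], Cont A S F 1) :
    ∃ r : ℕ, 0 < r ∧ Cont A S ℚ r := by
  obtain ⟨r, hr, hlaw⟩ := VL.wide_law (K := ℚ) (wideS_wide (finrank_self ℚ) h)
  refine ⟨r, hr, ?_⟩
  have h2 := hlaw _ (cont_isLaw hA) 1 (by
    intro F hF hnf
    exact h1 _ hF)
  rwa [mul_one] at h2

theorem cont_degree (hA : Bounded A S κ) {N : ℕ}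
    (h : ∀ (F : Type) [Field F] [NumberField F], N ∣ finrank ℚ F → Cont A S F 1)
    (F : Type) [Field F] [NumberField F] : Cont A S F ((N / N.gcd (finrank ℚ F) : ℕ) : ℤ) := by
  have h2 := VL.gen_power_law' (K := ℚ) (M := N) (cont_isLaw hA) (by
    intro F' _ _ a hN
    obtain rfl : a = DivisionRing.toRatAlgebra := Subsingleton.elim _ _
    exact h F' hN) F
  exact h2

theorem cont_sparse (hA : Bounded A S κ) {D : Set ℕ}
    (hD : ∀ d ∈ D, ∀ n : ℕ, 0 < n → d * n ∈ D) (hD' : ∀ g : ℕ, (∀ d ∈ D, g ∣ d) → g = 1)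
    (h : ∀ (F : Type) [Field F] [NumberField F], finrank ℚ F ∈ D → Cont A S F 1)
    (F : Type) [Field F] [NumberField F] : Cont A S F 1 := by
  refine VL.gen_sparse_law (K := ℚ) (cont_isLaw hA) hD hD' ?_ F
  intro F' _ _ a hN
  obtain rfl : a = DivisionRing.toRatAlgebra := Subsingleton.elim _ _
  exact h F' hN

end

section

theorem absNorm_rat (v : HeightOneSpectrum (𝓞 ℚ)) :
    Ideal.absNorm v.asIdeal = Rat.HeightOneSpectrum.natGenerator v := by
  set p := Rat.HeightOneSpectrum.natGenerator v with hp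
  have h1 : v.asIdeal = Ideal.span {((p : ℕ) : 𝓞 ℚ)} := by
    have h2 := Rat.HeightOneSpectrum.span_natGenerator v
    rw [← hp] at h2
    have h3 := Ideal.comap_map_of_bijective (Rat.IsIntegralClosure.intEquiv (𝓞 ℚ))
      (Rat.IsIntegralClosure.intEquiv (𝓞 ℚ)).bijective (I := v.asIdeal)
    have h4 := Ideal.comap_map_of_bijective (Rat.IsIntegralClosure.intEquiv (𝓞 ℚ))
      (Rat.IsIntegralClosure.intEquiv (𝓞 ℚ)).bijective (I := Ideal.span {((p : ℕ) : 𝓞 ℚ)})
    rw [← h3, ← h4, ← h2, Ideal.map_span, Set.image_singleton, map_natCast]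
  rw [h1, Ideal.absNorm_span_singleton]
  have h2 : Algebra.norm ℤ ((p : ℕ) : 𝓞 ℚ) = (p : ℤ) ^ finrank ℤ (𝓞 ℚ) := by
    have h3 := Algebra.norm_algebraMap_of_basis (RingOfIntegers.basis ℚ) (p : ℤ)
    rw [map_natCast] at h3
    rw [h3, Module.finrank_eq_card_basis (RingOfIntegers.basis ℚ)]
  rw [h2, RingOfIntegers.rank, finrank_self, pow_one, Int.natAbs_natCast]

variable {m : ℕ} (A : ℕ → Matrix (Fin m) (Fin m) ℂ) (S : Finset ℕ)

/-- the Euler product over `ℚ` -/
theorem LF_rat (s : ℂ) : LF A S ℚ s = ∏' p : Nat.Primes, (if (p : ℕ) ∈ S then 1 else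
    (1 - ((p : ℕ) : ℂ) ^ (-s) • A p).det)⁻¹ := by
  unfold LF
  rw [← Equiv.tprod_eq (Rat.HeightOneSpectrum.primesEquiv (R := 𝓞 ℚ))]
  refine tprod_congr fun v => ?_
  have hp := Rat.HeightOneSpectrum.prime_natGenerator v
  have h : Ideal.absNorm v.asIdeal = Rat.HeightOneSpectrum.natGenerator v ^ 1 := by
    rw [pow_one, absNorm_rat]
  obtain ⟨h1, h2⟩ := minFac_of hp one_pos h
  unfold fac
  rw [h1, h2, h, pow_one, pow_one]
  rfl

end

end Pool.Agent.Q5.GS
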