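import Pool.Agent.Q5.DP.Fam

/-! Euler products given by matrices `A p`, over number fields. -/

set_option autoImplicit false
set_option linter.unusedSectionVars false

namespace Pool.Agent.Q5.GS

open Module NumberField IsDedekindDomain Filter Pool.Agent.W353.NF Pool.Agent.W401.Cheb
  Pool.Agent.Q5.BR Polynomial
open scoped Classical

/-- the determinant of a polynomial in a matrix -/
theorem det_aeval {m : ℕ} (A : Matrix (Fin m) (Fin m) ℂ) (P : ℂ[X]) :
    (aeval A P).det = (A.charpoly.roots.map fun a => P.eval a).prod := by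
  have hcard : A.charpoly.roots.card = m := by
    rw [← (IsAlgClosed.splits A.charpoly).natDegree_eq_card_roots, Matrix.charpoly_natDegree_eq_dim,
      Fintype.card_fin]
  have h1 : ∀ r : ℂ, (A - algebraMap ℂ _ r).det = (A.charpoly.roots.map fun a => a - r).prod := by
    intro r
    have h2 : A.charpoly.eval r = (A.charpoly.roots.map fun a => r - a).prod := by
      conv_lhs => rw [(IsAlgClosed.splits A.charpoly).eval_eq_prod_roots_of_monic
        A.charpoly_monic]
    have h3 : A.charpoly.eval r = (algebraMap ℂ (Matrix (Fin m) (Fin m) ℂ) r - A).det := by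
      rw [Matrix.eval_charpoly]
      rfl
    have h4 : A - algebraMap ℂ _ r = -(algebraMap ℂ (Matrix (Fin m) (Fin m) ℂ) r - A) :=
      (neg_sub _ _).symm
    rw [h4, Matrix.det_neg, Fintype.card_fin, ← h3, h2]
    have h5 : (A.charpoly.roots.map fun a => a - r).prod =
        (A.charpoly.roots.map fun a => (-1) * (r - a)).prod := by
      refine congrArg _ (Multiset.map_congr rfl fun l _ => ?_)
      ring
    rw [h5, Multiset.prod_map_mul, Multiset.map_const', Multiset.prod_replicate, hcard]
  have hP : P.Splits := IsAlgClosed.splits P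
  have h6 : P = C P.leadingCoeff * (P.roots.map fun a => X - C a).prod := hP.eq_prod_roots
  have h7 : ∀ s : Multiset ℂ, (aeval A ((s.map fun a => X - C a).prod)).det =
      (A.charpoly.roots.map fun a => ((s.map fun b => X - C b).prod).eval a).prod := by
    intro s
    induction s using Multiset.induction_on with
    | empty => simp
    | cons b s ih =>
      rw [Multiset.map_cons, Multiset.prod_cons, map_mul, Matrix.det_mul, ih]
      have h8 : (aeval A (X - C b)).det = (A.charpoly.roots.map fun a => a - b).prod := by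
        rw [← h1 b]
        congr 1
        simp
      rw [h8, ← Multiset.prod_map_mul]
      refine congrArg _ (Multiset.map_congr rfl fun a _ => ?_)
      simp
  conv_lhs => rw [h6]
  rw [map_mul, Matrix.det_mul, h7]
  have h9 : (aeval A (C P.leadingCoeff)).det = P.leadingCoeff ^ m := by
    rw [aeval_C, Algebra.algebraMap_eq_smul_one, Matrix.det_smul, Matrix.det_one, mul_one,
      Fintype.card_fin]
  have h10 : (A.charpoly.roots.map fun a => P.eval a).prod =
      (A.charpoly.roots.map fun a => P.leadingCoeff *
        ((P.roots.map fun b => X - C b).prod).eval a).prod := by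
    refine congrArg _ (Multiset.map_congr rfl fun a _ => ?_)
    conv_lhs => rw [h6]
    rw [eval_mul, eval_C]
  rw [h9, h10, Multiset.prod_map_mul, Multiset.map_const', Multiset.prod_replicate, hcard]

theorem det_one_sub {m : ℕ} (A : Matrix (Fin m) (Fin m) ℂ) (f : ℕ) (z : ℂ) :
    (1 - z • A ^ f).det = (A.charpoly.roots.map fun a => 1 - z * a ^ f).prod := by
  have h := det_aeval A (1 - C z * X ^ f)
  have h1 : aeval A (1 - C z * X ^ f) = 1 - z • A ^ f := by
    rw [map_sub, map_one, map_mul, map_pow, aeval_X, aeval_C, Algebra.algebraMap_eq_smul_one,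
      smul_one_mul]
  rw [h1] at h
  rw [h]
  refine congrArg _ (Multiset.map_congr rfl fun a _ => ?_)
  simp

theorem card_roots {m : ℕ} (A : Matrix (Fin m) (Fin m) ℂ) : A.charpoly.roots.card = m := by
  rw [← (IsAlgClosed.splits A.charpoly).natDegree_eq_card_roots, Matrix.charpoly_natDegree_eq_dim,
    Fintype.card_fin]

/-- the bound -/
theorem multiset_bound (s : Multiset ℂ) {t : ℝ} (ht : t ≤ 1) (ht0 : 0 ≤ t)
    (h : ∀ a ∈ s, ‖a‖ ≤ t) : ‖(s.map fun a => 1 - a).prod - 1‖ ≤ (s.card * Real.exp s.card) * t := by
  obtain ⟨l, rfl⟩ : ∃ l : List ℂ, s = (l : Multiset ℂ) := ⟨s.toList, s.coe_toList.symm⟩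
  have e : (Multiset.map (fun a => 1 - a) (l : Multiset ℂ)).prod =
      ∏ j : Fin l.length, (1 - l.get j) := by
    rw [Multiset.map_coe, Multiset.prod_coe, ← List.prod_ofFn]
    congr 1
    refine List.ext_getElem (by simp) fun n h1 h2 => by simp
  have h1 := Finset.norm_prod_one_add_sub_one_le Finset.univ (fun j : Fin l.length => -(l.get j))
  simp only [norm_neg, ← sub_eq_add_neg] at h1
  rw [e]
  refine h1.trans ?_
  have hcard : (l : Multiset ℂ).card = l.length := rfl
  rw [hcard]
  have h2 : ∑ j : Fin l.length, ‖l.get j‖ ≤ l.length * t := by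
    refine (Finset.sum_le_sum fun j _ => h _ (by simp)).trans ?_
    simp
  set N : ℕ := l.length
  have h3 : Real.exp (∑ j : Fin N, ‖l.get j‖) - 1 ≤ Real.exp (N * t) - 1 :=
    sub_le_sub_right (Real.exp_le_exp.2 h2) 1
  refine h3.trans ?_
  have h4 : Real.exp (N * t) - 1 ≤ (N * t) * Real.exp (N * t) := by
    have h5 := Real.add_one_le_exp (-(N * t))
    have h6 : Real.exp (-(N * t)) * Real.exp (N * t) = 1 := by
      rw [← Real.exp_add]; simp
    have h7 : 0 < Real.exp (N * t) := Real.exp_pos _
    nlinarith
  refine h4.trans ?_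
  have h5 : Real.exp (N * t) ≤ Real.exp N := by
    apply Real.exp_le_exp.2
    have : (0 : ℝ) ≤ N := Nat.cast_nonneg N
    nlinarith
  have h6 : (0 : ℝ) ≤ N * t := mul_nonneg (Nat.cast_nonneg N) ht0
  nlinarith [Real.exp_pos (N : ℝ)]

end Pool.Agent.Q5.GS
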