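import Pool.Agent.Q5.GS.Cont

/-! The L-group of `GSp(2n)`. -/

set_option autoImplicit false

namespace Pool.Agent.Q5.GS

section
variable {V : Type} [AddCommGroup V] [Module ℂ V]

/-- the products of a nonzero scalar and an element of the spin group of `Q`, in the units of the
Clifford algebra -/
def GSpin (Q : QuadraticForm ℂ V) : Subgroup (CliffordAlgebra Q)ˣ where
  carrier := {u | ∃ c : ℂˣ, ∃ x ∈ spinGroup Q, (u : CliffordAlgebra Q) = (c : ℂ) • x}
  mul_mem' := by
    rintro u v ⟨c, x, hx, hu⟩ ⟨d, y, hy, hv⟩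
    refine ⟨c * d, x * y, mul_mem hx hy, ?_⟩
    rw [Units.val_mul, hu, hv, smul_mul_smul_comm, Units.val_mul]
  one_mem' := ⟨1, 1, one_mem _, by simp⟩
  inv_mem' := by
    rintro u ⟨c, x, hx, hu⟩
    refine ⟨c⁻¹, star x, spinGroup.star_mem hx, ?_⟩
    have h1 : (u : CliffordAlgebra Q) * (((c⁻¹ : ℂˣ) : ℂ) • star x) = 1 := by
      rw [hu, smul_mul_smul_comm, spinGroup.mul_star_self_of_mem hx, ← Units.val_mul,
        mul_inv_cancel, Units.val_one, one_smul]
    exact Units.inv_eq_of_mul_eq_one_right h1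

end

/-- the form `x_0² + ... + x_{2n}²` -/
noncomputable def form (n : ℕ) : QuadraticForm ℂ (Fin (2 * n + 1) → ℂ) :=
  QuadraticMap.weightedSumSquares ℂ fun _ : Fin (2 * n + 1) => (1 : ℂ)

/-- The group `GSpin_{2n+1}(ℂ)`, the L-group of `GSp(2n)` -/
def LGroup (n : ℕ) : Type := GSpin (form n)

noncomputable instance (n : ℕ) : Group (LGroup n) := (GSpin (form n)).toGroup

/-- the representations of dimension `m` -/
def Rep (n m : ℕ) : Type := LGroup n →* Matrix.GeneralLinearGroup (Fin m) ℂ

section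
variable {n m : ℕ} (ρ : Rep n m) (A : ℕ → LGroup n) (S : Finset ℕ)

/-- the matrices of the classes `A p` in the representation `ρ` -/
noncomputable def mats (p : ℕ) : Matrix (Fin m) (Fin m) ℂ :=
  (DFunLike.coe (F := LGroup n →* Matrix.GeneralLinearGroup (Fin m) ℂ) ρ (A p)).1

/-- the `t`-th power of the Euler product of the base change to `F` extends to a meromorphic function
on `ℂ` -/
def Continues (F : Type) [Field F] [NumberField F] (t : ℤ) : Prop := Cont (mats ρ A) S F t

end

end Pool.Agent.Q5.GS
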